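import Mathlib

set_option autoImplicit false

namespace Pool.Agent.Results.MP_24a371_gt.Counter

open Set Filter Topology

/-- A `T`-sequence in the abstract group `G`. -/
def IsTSeq {G : Type} [AddCommGroup G] (v : ℕ → G) : Prop :=
  ∃ τ : TopologicalSpace G, @IsTopologicalAddGroup G τ _ ∧ @T2Space G τ ∧
    Tendsto v atTop (@nhds G τ 0)

/-- `H` is a `T`-characterized subgroup of `Y`. -/
def TCharacterized {Y : Type} [AddCommGroup Y] [TopologicalSpace Y] (H : AddSubgroup Y) : Prop :=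
  ∃ v : ℕ → Y →ₜ+ UnitAddCircle, IsTSeq v ∧ ∀ y, y ∈ H ↔ Tendsto (fun n => v n y) atTop (𝓝 0)

/-- Every character of `H` extends to a character of `Y`. -/
def DuallyEmbedded {Y : Type} [AddCommGroup Y] [TopologicalSpace Y] (H : AddSubgroup Y) : Prop :=
  ∀ χ : H →ₜ+ UnitAddCircle, ∃ ψ : Y →ₜ+ UnitAddCircle, ∀ h : H, ψ h = χ h

lemma baer : Module.Baer ℤ UnitAddCircle := Module.Baer.of_divisible _

lemma tseq {Y : Type} [AddCommGroup Y] [TopologicalSpace Y] (a : Y) (e : ℕ → Y)
    (h : ∀ g : Y →ₜ+ UnitAddCircle, g a = 0 → (∀ n, g (e n) = 0) → g = 0)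
    (v : ℕ → Y →ₜ+ UnitAddCircle) (h1 : ∀ n, v n a = v n (e n)) (h2 : ∀ n k, k ≠ n → v n (e k) = 0) :
    IsTSeq v := by
  obtain ⟨L, hL⟩ := baer.extension_property_addMonoidHom Finsupp.coeFnAddHom
    DFunLike.coe_injective (Finsupp.liftAddHom fun _ : ℕ => AddMonoidHom.id UnitAddCircle)
  let Ψ : (Y →ₜ+ UnitAddCircle) →+ UnitAddCircle × (ℕ → UnitAddCircle) := AddMonoidHom.mk'
    (fun g => (g a - L fun n => g (e n), fun n => g (e n))) fun g g' => Prod.ext (by
      show g a + g' a - L ((fun n => g (e n)) + fun n => g' (e n)) = _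
      rw [map_add]; simp; abel) rfl
  have inj : Function.Injective Ψ := (injective_iff_map_eq_zero Ψ).2 fun g hg => by
    have b : (fun n => g (e n)) = 0 := congrArg Prod.snd hg
    have c : g a - L (fun n => g (e n)) = 0 := congrArg Prod.fst hg
    exact h g (by simpa [b] using c) (congrFun b)
  refine ⟨.induced Ψ inferInstance, topologicalAddGroup_induced Ψ,
    @T2Space.of_injective_continuous _ _ (.induced Ψ _) _ _ _ inj continuous_induced_dom, ?_⟩
  rw [nhds_induced, tendsto_comap_iff, map_zero]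
  refine Tendsto.prodMk_nhds (tendsto_const_nhds.congr fun n => ?_) (tendsto_pi_nhds.2 fun k =>
    tendsto_const_nhds.congr' ((eventually_gt_atTop k).mono fun n hn => (h2 n k hn.ne).symm))
  have : (fun k => v n (e k)) = Finsupp.single n (v n a) := funext fun k => by
    by_cases c : k = n
    · simp [c, h1]
    · simp [c, h2 n k c]
  have d := DFunLike.congr_fun hL (Finsupp.single n (v n a))
  simp only [AddMonoidHom.comp_apply, Finsupp.coeFnAddHom_apply, Finsupp.liftAddHom_apply_single,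
    AddMonoidHom.id_apply] at d
  show 0 = v n a - L fun k => v n (e k)
  rw [this]
  exact (sub_eq_zero.2 d.symm).symm

def X : Type := ZMod 4 × (ℕ →₀ ZMod 2)

noncomputable instance : AddCommGroup X := inferInstanceAs (AddCommGroup (ZMod 4 × (ℕ →₀ ZMod 2)))
instance : TopologicalSpace X := ⊥
instance : DiscreteTopology X := ⟨rfl⟩

def mk (z : ZMod 4) (x : ℕ →₀ ZMod 2) : X := (z, x)

/-- The subgroup of the elements whose first coordinate is killed by `m`. -/
noncomputable def H (m : ZMod 4) : AddSubgroup X where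
  carrier := {x | m * x.1 = 0}
  zero_mem' := mul_zero m
  add_mem' := fun {a b} p q => show m * (a.1 + b.1) = 0 by rw [mul_add, p, q, add_zero]
  neg_mem' := fun {a} p => show m * -a.1 = 0 by rw [mul_neg, p, neg_zero]

def j : ZMod 2 →+ ZMod 4 := AddMonoidHom.mk' (fun x => 2 * x.val) (by decide)

noncomputable def χ (m : ZMod 4) (n : ℕ) : X →ₜ+ UnitAddCircle :=
  ⟨AddMonoidHom.mk' (fun x => ZMod.toAddCircle (m * x.1 + j (x.2 n))) fun a b => by
    show ZMod.toAddCircle (m * (a.1 + b.1) + j (a.2 n + b.2 n)) = _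
    rw [← map_add, map_add j]; congr 1; ring, continuous_of_discreteTopology⟩

lemma χ_apply (m : ZMod 4) (n : ℕ) (x : X) : χ m n x = ZMod.toAddCircle (m * x.1 + j (x.2 n)) := rfl

lemma χ_lim (m : ZMod 4) (x : X) : x ∈ H m ↔ Tendsto (fun n => χ m n x) atTop (𝓝 0) := by
  have : (fun n => χ m n x) =ᶠ[atTop] fun _ => ZMod.toAddCircle (m * x.1) := by
    filter_upwards [eventually_gt_atTop (x.2.support.sup id)] with n hn
    rw [χ_apply, Finsupp.notMem_support_iff.1 fun c => hn.not_ge (Finset.le_sup (f := id) c)]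
    simp
  rw [tendsto_congr' this, tendsto_const_nhds_iff,
    map_eq_zero_iff _ (ZMod.toAddCircle_injective 4)]
  rfl

lemma kill {A : Type} [AddCommGroup A] (g : (ℕ →₀ ZMod 2) →+ A)
    (h : ∀ n, g (Finsupp.single n 1) = 0) : g = 0 :=
  Finsupp.addHom_ext fun n b => by fin_cases b; exacts [by show g (Finsupp.single n 0) = 0; simp, h n]

theorem not_tchar : ¬TCharacterized (H 1) := by
  rintro ⟨v, ⟨τ, _, _, t⟩, h⟩
  have two : ∀ x, 2 • mk 0 x = 0 := fun x => Prod.ext rfl (show 2 • x = 0 by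
    ext; simp [two_nsmul, CharTwo.add_self_eq_zero])
  have fin : {w : X →ₜ+ UnitAddCircle | ∀ x, w (mk 0 x) = 0}.Finite := by
    refine Finite.of_injOn (f := fun w => w (mk 1 0)) (fun w _ => ?_) (fun w a w' b e => ?_)
      (AddCircle.finite_torsion 1 (n := 4) four_pos)
    · show 4 • w (mk 1 0) = 0
      rw [← map_nsmul, show 4 • mk 1 0 = 0 from Prod.ext rfl (smul_zero _), map_zero]
    · ext ⟨z, x⟩
      have : ((z, x) : X) = z.val • mk 1 0 + mk 0 x := Prod.ext
        (show z = z.val • (1 : ZMod 4) + 0 by simp) (show x = z.val • (0 : ℕ →₀ ZMod 2) + x by simp)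
      rw [this, map_add, map_add, a, b, map_nsmul, map_nsmul, show w (mk 1 0) = _ from e]
  have t2 : Tendsto (fun n => v n + v n) atTop (@nhds _ τ 0) := by simpa using t.add t
  have := t2.eventually ((fin.sdiff (t := {0})).isClosed.isOpen_compl.mem_nhds (by simp))
  have c := (h (2 • mk 1 0)).2 (tendsto_const_nhds.congr' (this.mono fun n hn => by
    have : v n + v n = 0 := by_contra fun c => hn ⟨fun x => by
      show v n (mk 0 x) + v n (mk 0 x) = 0
      rw [← two_nsmul, ← map_nsmul, two, map_zero], c⟩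
    show 0 = v n (2 • mk 1 0)
    rw [map_nsmul, two_nsmul]
    exact (DFunLike.congr_fun this (mk 1 0)).symm))
  exact absurd (show (1 : ZMod 4) * (2 • 1) = 0 from c) (by decide)

lemma off (m : ZMod 4) {n k : ℕ} (h : k ≠ n) : χ m n (mk 0 (Finsupp.single k 1)) = 0 := by
  simp [χ_apply, mk, Finsupp.single_apply, h]

lemma split (x : X) : x = mk x.1 0 + mk 0 x.2 :=
  Prod.ext (add_zero x.1).symm (zero_add x.2).symm

lemma mk_add (x y : ℕ →₀ ZMod 2) : mk 0 (x + y) = mk 0 x + mk 0 y :=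
  Prod.ext (add_zero (0 : ZMod 4)).symm rfl

def a₁ : H 2 := ⟨mk 2 0, show (2 : ZMod 4) * 2 = 0 by decide⟩

def e₁ (x : ℕ →₀ ZMod 2) : H 2 := ⟨mk 0 x, mul_zero (2 : ZMod 4)⟩

lemma t1 : TCharacterized ((H 1).addSubgroupOf (H 2)) := by
  let ι : H 2 →ₜ+ X := ⟨(H 2).subtype, continuous_subtype_val⟩
  refine ⟨fun n => (χ 1 n).comp ι, ?_, fun y => χ_lim 1 y⟩
  refine tseq a₁ (fun n => e₁ (Finsupp.single n 1)) (fun g a b => ?_) _ (fun n => ?_)
    fun n k h => off 1 h
  · have k := DFunLike.congr_fun (kill (AddMonoidHom.mk' (fun x => g (e₁ x)) fun x y => by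
      rw [← map_add]; exact congrArg g (Subtype.ext (mk_add x y))) b)
    ext ⟨⟨z, x⟩, h⟩
    have : ∀ z : ZMod 4, 2 * z = 0 → z = 0 ∨ z = 2 := by decide
    rcases this z h with rfl | rfl
    · exact k x
    · have : (⟨(2, x), h⟩ : H 2) = a₁ + e₁ x := Subtype.ext (split _)
      rw [this, map_add, a, zero_add]
      exact k x
  · show χ 1 n (mk 2 0) = χ 1 n (mk 0 (Finsupp.single n 1))
    simp only [χ_apply, mk, Finsupp.single_eq_same, Finsupp.zero_apply]
    congr 1

lemma t2 : TCharacterized (H 2) := by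
  refine ⟨χ 2, ?_, χ_lim 2⟩
  refine tseq (mk 1 0) (fun n => mk 0 (Finsupp.single n 1)) (fun g a b => ?_) _ (fun n => ?_)
    fun n k h => off 2 h
  · have k := DFunLike.congr_fun (kill (AddMonoidHom.mk' (fun x => g (mk 0 x)) fun x y => by
      rw [← map_add, mk_add]) b)
    ext x
    have : mk x.1 0 = x.1.val • mk 1 0 := Prod.ext (show x.1 = x.1.val • (1 : ZMod 4) by simp)
      (smul_zero x.1.val).symm
    rw [split x, map_add, this, map_nsmul, a, smul_zero, zero_add]
    exact k x.2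
  · simp only [χ_apply, mk, Finsupp.single_eq_same, Finsupp.zero_apply]
    congr 1

theorem result : ∃ (X : Type) (_ : AddCommGroup X) (_ : TopologicalSpace X)
    (_ : IsTopologicalAddGroup X) (X₀ X₁ : AddSubgroup X), X₀ ≤ X₁ ∧ DuallyEmbedded X₁ ∧
      TCharacterized (X₀.addSubgroupOf X₁) ∧ TCharacterized X₁ ∧ ¬TCharacterized X₀ := by
  refine ⟨X, inferInstance, inferInstance, inferInstance, H 1, H 2, fun x (h : 1 * x.1 = 0) =>
    show 2 * x.1 = 0 by rw [one_mul] at h; rw [h, mul_zero], fun c => ?_, t1, t2, not_tchar⟩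
  obtain ⟨ψ, h⟩ := baer.extension_property_addMonoidHom (H 2).subtype Subtype.val_injective
    c.toAddMonoidHom
  exact ⟨⟨ψ, continuous_of_discreteTopology⟩, DFunLike.congr_fun h⟩

end Pool.Agent.Results.MP_24a371_gt.Counter
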